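import Mathlib
import Pool.Agent.Q30.SqRF

/-!
The fundamental groups of the square complexes `Δ_X` are residually finite whenever `X` is an
elementary abelian `2`-group.
-/

set_option linter.style.haveILetI false

namespace Pool.Agent.Results.MP_4d6048_al.ElementaryTwo

open Polynomial Q30.SqRF

/-- The defining relators of `π₁(Δ_X)`: for `i,j ∈ X` the relator
`a_i b_j (b_{i+j} a_{i-j})⁻¹`; the generator `a_i` is `Sum.inl i`, `b_j` is `Sum.inr j`. -/
def rels (X : Type) [AddCommGroup X] : Set (FreeGroup (X ⊕ X)) :=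
  {r | ∃ i j : X, r = FreeGroup.of (Sum.inl i) * FreeGroup.of (Sum.inr j) *
    (FreeGroup.of (Sum.inr (i + j)) * FreeGroup.of (Sum.inl (i - j)))⁻¹}

/-- The group `π₁(Δ_X) = ⟨ a_i, b_j (i,j ∈ X) | a_i b_j = b_{i+j} a_{i-j} (i,j ∈ X) ⟩`. -/
abbrev G (X : Type) [AddCommGroup X] : Type := PresentedGroup (rels X)

/-- Residual finiteness: every non-trivial element survives in some finite group. -/
def ResFinite (Γ : Type) [Group Γ] : Prop :=
  ∀ g : Γ, g ≠ 1 → ∃ (K : Type) (_ : Group K) (_ : Finite K) (f : Γ →* K), f g ≠ 1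

variable {X : Type} [AddCommGroup X]

/-- The generator `a_i`. -/
def a (i : X) : G X := PresentedGroup.of (Sum.inl i)

/-- The generator `b_j`. -/
def b (j : X) : G X := PresentedGroup.of (Sum.inr j)

theorem rel (i j : X) : a i * b j = b (i + j) * a (i - j) := by
  have h : (PresentedGroup.mk (rels X)) (FreeGroup.of (Sum.inl i) * FreeGroup.of (Sum.inr j) *
    (FreeGroup.of (Sum.inr (i + j)) * FreeGroup.of (Sum.inl (i - j)))⁻¹) = 1 :=
    PresentedGroup.one_of_mem ⟨i, j, rfl⟩
  rw [map_mul, map_inv, mul_inv_eq_one, map_mul, map_mul] at h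
  exact h

/-- `z_s = a_0⁻¹ a_s` -/
def z (s : X) : G X := (a 0)⁻¹ * a s

theorem a_eq (s : X) : a s = a 0 * z s := by rw [z, mul_inv_cancel_left]

theorem relA (s : X) : a s * b 0 = b s * a s := by
  have := rel s 0
  rwa [add_zero, sub_zero] at this

section two

variable (h2 : ∀ s : X, s + s = 0)

include h2

theorem sub_eq (i j : X) : i - j = i + j := by
  rw [sub_eq_add_neg, neg_eq_of_add_eq_zero_left (h2 j)]

theorem b_eq (s : X) : b s = z s * b 0 := by
  have h1 := relA s
  have h3 := rel 0 s
  rw [zero_add, sub_eq h2, zero_add, ← h1] at h3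
  rw [z, mul_assoc, ← h3, inv_mul_cancel_left]

theorem z_add (i j : X) : z (i + j) = z i * z j := by
  have h1 := rel i j
  rw [sub_eq h2, ← relA (i + j), b_eq h2 j, a_eq i, a_eq (i + j)] at h1
  have h3 : a 0 * (z i * z j) * b 0 = a 0 * z (i + j) * b 0 := by
    rw [← h1]; group
  exact (mul_left_cancel (mul_right_cancel h3)).symm

theorem relS : Rel (a (0 : X)) (b 0) z where
  add := z_add h2
  comm := by
    have := relA (0 : X)
    exact this
  rel s := by
    have hc : a (0 : X) * b 0 = b 0 * a 0 := relA 0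
    have h1 := relA s
    rw [b_eq h2 s, a_eq s] at h1
    have h3 : z s * b 0 * (a 0 * z s) = z s * a 0 * b 0 * z s := by
      rw [mul_assoc (z s) (a 0), hc]; group
    rw [h3] at h1
    calc z s = (a 0)⁻¹ * (a 0 * z s * b 0) * (b 0)⁻¹ := by group
      _ = (a 0)⁻¹ * (z s * a 0 * b 0 * z s) * (b 0)⁻¹ := by rw [h1]
      _ = ((a 0)⁻¹ * z s * a 0) * (b 0 * z s * (b 0)⁻¹) := by group

theorem closure_eq_top :
    Subgroup.closure ({a (0 : X), b 0} ∪ Set.range (z : X → G X)) = ⊤ := by
  rw [eq_top_iff, ← PresentedGroup.closure_range_of, Subgroup.closure_le]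
  have ha : a (0 : X) ∈ Subgroup.closure ({a (0 : X), b 0} ∪ Set.range (z : X → G X)) :=
    Subgroup.subset_closure (by simp)
  have hb : b (0 : X) ∈ Subgroup.closure ({a (0 : X), b 0} ∪ Set.range (z : X → G X)) :=
    Subgroup.subset_closure (by simp)
  have hz : ∀ s : X, z s ∈ Subgroup.closure ({a (0 : X), b 0} ∪ Set.range (z : X → G X)) :=
    fun s => Subgroup.subset_closure (by simp)
  rintro _ ⟨i | j, rfl⟩
  · have h1 := mul_mem ha (hz i)
    rwa [← a_eq] at h1
  · have h1 := mul_mem (hz j) hb
    rwa [← b_eq h2] at h1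

theorem nf (g : G X) : NF (a (0 : X)) (b 0) z g :=
  (relS h2).normal_form (by rw [closure_eq_top h2]; trivial)

end two

/-- The homomorphism to a cyclic group counting the letters `a_i` (`e = (1,0)`) or the letters
`b_j` (`e = (0,1)`). -/
def count (N : ℕ) (e : ZMod N × ZMod N) : G X →* Multiplicative (ZMod N) :=
  PresentedGroup.toGroup
    (f := fun c => match c with
      | Sum.inl _ => Multiplicative.ofAdd e.1
      | Sum.inr _ => Multiplicative.ofAdd e.2)
    (by
      rintro r ⟨i, j, rfl⟩
      rw [map_mul, map_inv, mul_inv_eq_one, map_mul, map_mul]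
      simp only [FreeGroup.lift_apply_of]
      rw [mul_comm])

theorem count_a (N : ℕ) (e : ZMod N × ZMod N) (i : X) :
    count N e (a i) = Multiplicative.ofAdd e.1 :=
  PresentedGroup.toGroup.of _

theorem count_b (N : ℕ) (e : ZMod N × ZMod N) (i : X) :
    count N e (b i) = Multiplicative.ofAdd e.2 :=
  PresentedGroup.toGroup.of _

theorem aut_conj (k l : ℕ) (r : G X) :
    (al (a (0 : X)) ^ k * xi (b (0 : X)) ^ l) r =
      ((a (0 : X))⁻¹ ^ k * b 0 ^ l) * r * ((a (0 : X))⁻¹ ^ k * b 0 ^ l)⁻¹ := by
  rw [al, xi, ← map_pow, ← map_pow, ← map_mul, MulAut.conj_apply]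

theorem count_P (N : ℕ) (e : ZMod N × ZMod N) {p : G X} (hp : p ∈ P (a (0 : X)) z) :
    count N e p = 1 := by
  have : P (a (0 : X)) z ≤ (count N e).ker := by
    unfold P
    rw [Subgroup.closure_le]
    rintro _ ⟨i, s, rfl⟩
    have h1 := aut_conj i 0 (z s)
    rw [pow_zero, mul_one, pow_zero, mul_one] at h1
    rw [SetLike.mem_coe, MonoidHom.mem_ker, h1, map_mul, map_mul, map_inv, mul_comm,
      ← mul_assoc, inv_mul_cancel, one_mul, z, map_mul, map_inv, count_a, count_a,
      inv_mul_cancel]
  exact this hp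

theorem count_r (N : ℕ) (e : ZMod N × ZMod N) {k l : ℕ} {r : G X}
    (hr : (al (a (0 : X)) ^ k * xi (b (0 : X)) ^ l) r ∈ P (a (0 : X)) z) :
    count N e r = 1 := by
  have h1 := count_P N e hr
  rw [aut_conj, map_mul, map_mul, map_inv, mul_comm, ← mul_assoc, inv_mul_cancel,
    one_mul] at h1
  exact h1

/-! ### affine representations over finite fields -/

section field

variable {F : Type} [Field F]

/-- The affine permutation `y ↦ u y + t`. -/
def aff (u : Fˣ) (t : F) : Equiv.Perm F where
  toFun y := u * y + t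
  invFun y := ((u⁻¹ : Fˣ) : F) * (y - t)
  left_inv y := by
    have : ((u⁻¹ : Fˣ) : F) * u = 1 := Units.inv_mul u
    linear_combination y * this
  right_inv y := by
    have : ((u⁻¹ : Fˣ) : F) * u = 1 := Units.inv_mul u
    linear_combination (y - t) * this

theorem aff_apply (u : Fˣ) (t y : F) : aff u t y = u * y + t := rfl

/-- Images of generators. -/
def img (m : X →+ F) (u v : Fˣ) : X ⊕ X → Equiv.Perm F
  | Sum.inl i => aff u (m i)
  | Sum.inr j => aff v ((1 - v) * m j)

theorem img_rels (m : X →+ F) (u v : Fˣ) (huv : (1 - (u : F)) * (1 - v) = v) :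
    ∀ r ∈ rels X, FreeGroup.lift (img m u v) r = 1 := by
  rintro r ⟨i, j, rfl⟩
  rw [map_mul, map_inv, mul_inv_eq_one, map_mul, map_mul]
  simp only [FreeGroup.lift_apply_of]
  ext y
  simp only [img, Equiv.Perm.mul_apply, aff_apply, map_add, map_sub]
  linear_combination (-(m j)) * huv

/-- The affine representation. -/
noncomputable def rep (m : X →+ F) (u v : Fˣ) (huv : (1 - (u : F)) * (1 - v) = v) :
    G X →* Equiv.Perm F :=
  PresentedGroup.toGroup (img_rels m u v huv)

theorem rep_z (m : X →+ F) (u v : Fˣ) (huv : (1 - (u : F)) * (1 - v) = v) (s : X) (y : F) :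
    rep m u v huv (z s) y = y + ((u⁻¹ : Fˣ) : F) * m s := by
  have h1 : ∀ i : X, rep m u v huv (a i) = aff u (m i) := fun i =>
    PresentedGroup.toGroup.of (img_rels m u v huv)
  have h3 : ((u⁻¹ : Fˣ) : F) * u = 1 := Units.inv_mul u
  rw [z, map_mul, map_inv, h1, h1, Equiv.Perm.mul_apply, Equiv.Perm.inv_eq_iff_eq, aff_apply,
    aff_apply, map_zero]
  linear_combination (-(m s)) * h3

theorem rep_al (m : X →+ F) (u v : Fˣ) (huv : (1 - (u : F)) * (1 - v) = v) (s : X) (i : ℕ)
    (y : F) :
    rep m u v huv ((al (a (0 : X)) ^ i) (z s)) y = y + ((u⁻¹ : Fˣ) : F) ^ (i + 1) * m s := by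
  induction i generalizing y with
  | zero => rw [pow_zero, zero_add, pow_one]; exact rep_z m u v huv s y
  | succ i ih =>
    have h1 : rep m u v huv (a 0) = aff u (m 0) := PresentedGroup.toGroup.of (img_rels m u v huv)
    have h3 : ((u⁻¹ : Fˣ) : F) * u = 1 := Units.inv_mul u
    rw [pow_succ', MulAut.mul_apply, al_apply, map_mul, map_mul, map_inv, h1,
      Equiv.Perm.mul_apply, Equiv.Perm.mul_apply, ih, Equiv.Perm.inv_eq_iff_eq, aff_apply,
      aff_apply, map_zero]
    linear_combination (-((u⁻¹ : Fˣ) : F) ^ (i + 1) * m s) * h3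

end field

/-- Evaluation of non-zero polynomials over `F_2` at points of finite fields. -/
theorem exists_field (Q : (ZMod 2)[X]) (hQ : Q ≠ 0) :
    ∃ (F : Type) (_ : Field F) (_ : Finite F) (_ : Algebra (ZMod 2) F) (t : F),
      t ≠ 0 ∧ t + 1 ≠ 0 ∧ aeval t Q ≠ 0 := by
  haveI : Fact (Nat.Prime 2) := ⟨Nat.prime_two⟩
  let Q' : (ZMod 2)[X] := Q * X * (X + 1)
  have hQ' : Q' ≠ 0 := by
    refine mul_ne_zero (mul_ne_zero hQ X_ne_zero) ?_
    have : (X + 1 : (ZMod 2)[X]) = X + C 1 := by rw [C_1]
    rw [this]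
    exact X_add_C_ne_zero 1
  let n := Q'.natDegree + 1
  let F := GaloisField 2 n
  let f : F[X] := Q'.map (algebraMap (ZMod 2) F)
  have hf : f ≠ 0 := (Polynomial.map_ne_zero_iff (algebraMap (ZMod 2) F).injective).mpr hQ'
  have hcard : Nat.card F = 2 ^ n := GaloisField.card 2 n (by omega)
  have hdeg : (f.natDegree : Cardinal) < Cardinal.mk F := by
    rw [← Nat.cast_card, hcard]
    have h1 : f.natDegree ≤ Q'.natDegree := natDegree_map_le
    have h3 : Q'.natDegree < 2 ^ n :=
      lt_of_lt_of_le (Nat.lt_two_pow_self) (Nat.pow_le_pow_right (by norm_num) (by omega))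
    exact_mod_cast lt_of_le_of_lt h1 h3
  obtain ⟨t, ht⟩ := Polynomial.exists_eval_ne_zero_of_natDegree_lt_card f hf hdeg
  refine ⟨F, inferInstance, inferInstance, inferInstance, t, ?_, ?_, ?_⟩
  · rintro rfl
    apply ht
    rw [eval_map_algebraMap, map_mul, map_mul, aeval_X, mul_zero, zero_mul]
  · intro h
    apply ht
    rw [eval_map_algebraMap, map_mul, map_add, aeval_X, map_one, h, mul_zero]
  · intro h
    apply ht
    rw [eval_map_algebraMap, map_mul, map_mul, h, zero_mul, zero_mul]

/-- The linear functional on finitely supported functions. -/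
noncomputable def lin {F : Type} [Field F] (m : X →+ F) (t : F) : (ℕ →₀ X) →+ F :=
  Finsupp.liftAddHom fun i => (AddMonoidHom.mulLeft (t ^ (i + 1))).comp m

theorem rf (h2 : ∀ s : X, s + s = 0) : ResFinite (G X) := by
  intro g hg
  obtain ⟨k, l, m, n, r, hr, rfl⟩ := nf h2 g
  by_cases hm : m = 0
  · by_cases hn : n = 0
    · subst hm hn
      rw [zpow_zero, zpow_zero, mul_one, mul_one] at hg ⊢
      obtain ⟨Ψ, hΨ, hrange⟩ := (relS h2).exists_hom
      rw [← hrange] at hr
      obtain ⟨w, hw⟩ := hr
      have hw0 : Multiplicative.toAdd w ≠ 0 := by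
        intro h0
        have h1 : w = 1 := h0
        rw [h1, map_one, eq_comm, MulEquiv.map_eq_one_iff] at hw
        exact hg hw
      -- a coordinate functional
      obtain ⟨i0, hi0⟩ : ∃ i, Multiplicative.toAdd w i ≠ 0 := by
        by_contra hcon
        push Not at hcon
        exact hw0 (Finsupp.ext hcon)
      letI : Module (ZMod 2) X := AddCommGroup.zmodModule (fun s => by rw [two_nsmul, h2])
      obtain ⟨phi, hphi⟩ : ∃ phi : Module.Dual (ZMod 2) X, phi (Multiplicative.toAdd w i0) ≠ 0 := by
        by_contra hcon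
        push Not at hcon
        exact hi0 ((Module.forall_dual_apply_eq_zero_iff (ZMod 2) _).mp hcon)
      let Q : (ZMod 2)[X] := ∑ i ∈ (Multiplicative.toAdd w).support,
        monomial (i + 1) (phi (Multiplicative.toAdd w i))
      have hQ : Q ≠ 0 := by
        intro h0
        have h1 : Q.coeff (i0 + 1) = phi (Multiplicative.toAdd w i0) := by
          rw [finsetSum_coeff]
          simp only [coeff_monomial]
          rw [Finset.sum_eq_single i0]
          · simp
          · intro j _ hj
            rw [if_neg (by omega)]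
          · intro h
            rw [if_pos rfl]
            rw [Finsupp.notMem_support_iff] at h
            exact absurd h hi0
        rw [h0, coeff_zero] at h1
        exact hphi h1.symm
      obtain ⟨F, _, _, _, t, ht0, ht1, htQ⟩ := exists_field Q hQ
      have hchar : (2 : F) = 0 := by
        have : algebraMap (ZMod 2) F 2 = algebraMap (ZMod 2) F 0 := by
          congr 1
        rwa [map_ofNat, map_zero] at this
      let u : Fˣ := (Units.mk0 t ht0)⁻¹
      let v : Fˣ := Units.mk0 (t + 1) ht1
      have hu : ((u⁻¹ : Fˣ) : F) = t := by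
        change (((Units.mk0 t ht0)⁻¹⁻¹ : Fˣ) : F) = t
        rw [inv_inv]
        rfl
      have hv : (v : F) = t + 1 := rfl
      have huv : (1 - (u : F)) * (1 - v) = v := by
        have h3 : ((u⁻¹ : Fˣ) : F) * u = 1 := Units.inv_mul u
        rw [hu] at h3
        rw [hv]
        linear_combination h3 - (t : F) * hchar
      let mm : X →+ F := ((algebraMap (ZMod 2) F).toAddMonoidHom).comp phi.toAddMonoidHom
      have key : ∀ w' : ℕ →₀ X, ∀ y : F,
          rep mm u v huv (Ψ (Multiplicative.ofAdd w')) y = y + lin mm t w' := by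
        intro w'
        induction w' using Finsupp.induction_linear with
        | zero =>
          intro y
          rw [ofAdd_zero, map_one, map_one, map_zero, add_zero]
          rfl
        | add w1 w2 h1 h3 =>
          intro y
          rw [ofAdd_add, map_mul, map_mul, Equiv.Perm.mul_apply, h1, h3, map_add]
          ring
        | single i s =>
          intro y
          rw [hΨ, rep_al, hu]
          congr 1
          exact (Finsupp.liftAddHom_apply_single
            (fun i => (AddMonoidHom.mulLeft (t ^ (i + 1))).comp mm) i s).symm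
      have hlin : lin mm t (Multiplicative.toAdd w) = aeval t Q := by
        rw [map_sum]
        simp only [aeval_monomial]
        unfold lin
        rw [Finsupp.liftAddHom_apply, Finsupp.sum]
        apply Finset.sum_congr rfl
        intro i _
        change t ^ (i + 1) * algebraMap (ZMod 2) F (phi _) = _
        rw [mul_comm]
      refine ⟨Equiv.Perm F, inferInstance, inferInstance, rep mm u v huv, fun hbad => ?_⟩
      have h4 : rep mm u v huv (Ψ w) = 1 := by
        rw [hw, aut_conj, map_mul, map_mul, hbad, mul_one, ← map_mul, mul_inv_cancel, map_one]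
      have h5 := key (Multiplicative.toAdd w) 0
      rw [ofAdd_toAdd, h4, hlin, zero_add] at h5
      exact htQ h5.symm
    · refine ⟨Multiplicative (ZMod (n.natAbs + 1)), inferInstance, inferInstance,
        count (n.natAbs + 1) (0, 1), ?_⟩
      rw [map_mul, count_r _ _ hr, one_mul, map_mul, map_zpow, map_zpow, count_a, count_b,
        ofAdd_zero, one_zpow, one_mul, ← ofAdd_zsmul]
      intro h0
      have h1 : (n • (1 : ZMod (n.natAbs + 1))) = 0 := h0
      rw [zsmul_one, ZMod.intCast_zmod_eq_zero_iff_dvd] at h1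
      have h3 := Int.natAbs_dvd_natAbs.mpr h1
      have h4 := Nat.le_of_dvd (by omega) h3
      simp only [Nat.cast_add, Nat.cast_one] at h4
      omega
  · refine ⟨Multiplicative (ZMod (m.natAbs + 1)), inferInstance, inferInstance,
      count (m.natAbs + 1) (1, 0), ?_⟩
    rw [map_mul, count_r _ _ hr, one_mul, map_mul, map_zpow, map_zpow, count_a, count_b,
      ofAdd_zero, one_zpow, mul_one, ← ofAdd_zsmul]
    intro h0
    have h1 : (m • (1 : ZMod (m.natAbs + 1))) = 0 := h0
    rw [zsmul_one, ZMod.intCast_zmod_eq_zero_iff_dvd] at h1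
    have h3 := Int.natAbs_dvd_natAbs.mpr h1
    have h4 := Nat.le_of_dvd (by omega) h3
    simp only [Nat.cast_add, Nat.cast_one] at h4
    omega

/-- There is a finite abelian group `X` of order greater than two with `π₁(Δ_X)` residually
finite; in fact `π₁(Δ_X)` is residually finite for every (finite) elementary abelian `2`-group
`X`. -/
theorem result :
    (∃ (X : Type) (_ : AddCommGroup X), Finite X ∧ 2 < Nat.card X ∧ ResFinite (G X)) ∧
      ∀ (X : Type) [AddCommGroup X], (∀ s : X, s + s = 0) → ResFinite (G X) := by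
  refine ⟨⟨ZMod 2 × ZMod 2, inferInstance, inferInstance, ?_, rf (by decide)⟩,
    fun X _ h2 => rf h2⟩
  rw [Nat.card_prod, Nat.card_zmod]
  norm_num

end Pool.Agent.Results.MP_4d6048_al.ElementaryTwo
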